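import Pool.Agent.H88.TU.NearB

/-!
# Project TU: a class below the bottom degree gives cohomology in a wrong degree
-/

set_option autoImplicit false

open Module QuadraticForm Filter Topology
open Pool.Agent.H47.QG (Pt action flw oseq Gen ind Zn MeanIdx)
open Pool.Agent.H47.ST
open Pool.Agent.H75.TH (Near Sepd Alive Wrong)
open Pool.Agent.H45.AC (Rgd exists_Rgd)
open Pool.Agent.H93.TU

namespace Pool.Agent.H88.TU

variable {n : ℕ}

/-- **A class in the degree `b` at the level `K`**: for every function close to the action of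
period `K` some band, with ends outside of a given finite set, has cohomology in the degree
`b`. -/
def Low (S : ℕ → Pt n → ℝ) (K : ℕ) [NeZero K] (b : ℕ) : Prop :=
  ∃ ε > 0, ∃ R₀ : ℝ, ∀ (F : Type) [Field F] (g : (Iz n K → ℝ) → ℝ), Continuous g →
    PerL (Lc n K) g → (∀ y, |g y - fS S K y| ≤ ε) → ∀ R ≥ R₀, ∀ V : Finset ℝ,
      ∃ lo hi : ℝ, lo < hi ∧ lo ∉ V ∧ hi ∉ V ∧ ∀ᶠ M : ℕ in atTop,
        ¬ HR F (lam (Lc n K) M) (Lv (qK n K) (QK n K) g R R hi M)
          (Lv (qK n K) (QK n K) g R R lo M) b 0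

theorem per_mul {α : Type*} {S : ℕ → α} {N : ℕ} (h : ∀ j, S (j + N) = S j) (m : ℕ) (j : ℕ) :
    S (j + m * N) = S j := by
  induction m with
  | zero => rw [zero_mul, add_zero]
  | succ m ih => rw [Nat.succ_mul, ← add_assoc, h, ih]

/-- **A class below the bottom degree** `n (K - 1)` gives cohomology in a wrong degree. -/
theorem wrong_of_low {S : ℕ → Pt n → ℝ} {f : ℕ → Pt n → Pt n} (hS : ∀ j, Gen (S j) (f j)) {K : ℕ}
    [NeZero K] (hper : ∀ j, S (j + K) = S j) (hfper : ∀ j, f (j + K) = f j)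
    (W : Finset (Pt n)) (hW : ∀ w, flw f K w = w ↔ ∃ w' ∈ W, w - w' ∈ Zn n)
    (hWd : ∀ w ∈ W, ∀ w' ∈ W, w - w' ∈ Zn n → w = w') {b : ℕ} (hb : b < n * (K - 1))
    (h : Low S K b) : Wrong S f K := by
  classical
  intro C
  obtain ⟨ε, hε, R₁, h1⟩ := h
  obtain ⟨C₂, hC₂⟩ := fS_grad hS K
  obtain ⟨R₂, -, hR₂⟩ := exists_Rgd n K one_pos (C + C₂)
  refine ⟨ε, hε, max R₁ R₂, 0, fun q _ _ g hg hsep R hR => ?_⟩
  by_contra hcon
  push Not at hcon
  have hC' : ∀ y b, |fderiv ℝ g y (Pi.single b 1) - DK n K y b| ≤ C + C₂ := by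
    intro y b
    have h2 := hg.grad y b
    have h3 := hC₂ y b
    have h4 : fderiv ℝ g y (Pi.single b 1) - DK n K y b =
        (fderiv ℝ g y (Pi.single b 1) - fderiv ℝ (fS S K) y (Pi.single b 1)) +
          (fderiv ℝ (fS S K) y (Pi.single b 1) - DK n K y b) := by ring
    rw [h4]
    exact (abs_add_le _ _).trans (by linarith)
  obtain ⟨lo, hi, hlt, hlo, hhi, hH⟩ := h1 (ZMod q) g hg.smooth.continuous hg.per hg.sup R
    ((le_max_left _ _).trans hR) (W.image fun w => g (zw f K w))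
  have hval : ∀ w, flw f K w = w → g (zw f K w) ∈ W.image fun w => g (zw f K w) := by
    intro w hw
    obtain ⟨w', hw', he⟩ := (hW w).1 hw
    obtain ⟨l, hl, h2⟩ := (zw_add hS K w w').2 he
    rw [h2, hg.per l hl]
    exact Finset.mem_image_of_mem (fun w => g (zw f K w)) hw'
  have h2 := near_between hS hper hfper W hW hWd hg hsep hC' (hR₂ R ((le_max_right _ _).trans hR))
    hcon hlt (fun w hw he => hlo (by rw [← he]; exact hval w hw))
    (fun w hw he => hhi (by rw [← he]; exact hval w hw))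
  have h3 : Tendsto (fun M : ℕ => 2 ^ M) atTop atTop :=
    tendsto_pow_atTop_atTop_of_one_lt (by norm_num)
  obtain ⟨M, h4, h5⟩ := (h2.and (h3.eventually hH)).exists
  exact h5 (h4 b hb)

/-- **Case 2**: the class in the degree `n (m N) - n - 1` for all large `m`. -/
theorem wrong_of_lows {S : ℕ → Pt n → ℝ} {f : ℕ → Pt n → Pt n} (hS : ∀ j, Gen (S j) (f j))
    (hn : 0 < n) {N : ℕ} [NeZero N] (hper : ∀ j, S (j + N) = S j) (hfper : ∀ j, f (j + N) = f j)
    (hfin : ∀ m : ℕ, 0 < m → ∃ W : Finset (Pt n),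
      (∀ w, flw f (m * N) w = w ↔ ∃ w' ∈ W, w - w' ∈ Zn n) ∧
      ∀ w ∈ W, ∀ w' ∈ W, w - w' ∈ Zn n → w = w')
    (m : ℕ) [NeZero (m * N)] (hm : 2 ≤ m * N) (h : Low S (m * N) (n * (m * N) - n - 1)) :
    Wrong S f (m * N) := by
  have hm0 : 0 < m := Nat.pos_of_ne_zero fun h0 => by simp [h0] at hm
  obtain ⟨W, hW, hWd⟩ := hfin m hm0
  refine wrong_of_low hS (per_mul hper m) (per_mul hfper m) W hW hWd ?_ h
  have h1 : n * (m * N) - n = n * (m * N - 1) := by rw [Nat.mul_sub, mul_one]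
  have h2 : 0 < n * (m * N - 1) := Nat.mul_pos hn (by omega)
  omega

end Pool.Agent.H88.TU
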