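import Pool.Agent.H21.TU.Hom
import Pool.Agent.H88.TU.Case2

/-!
# Project TU: from the geometric data of the action to all functions close to it
-/

set_option autoImplicit false

open Filter Topology
open Pool.Agent.H47.QG (Pt)
open Pool.Agent.H47.ST
open Pool.Agent.H21.TU (Geo geo_HR cpt_list Phi blf gr)

namespace Pool.Agent.H88.TU

variable {ι : Type*} [Fintype ι] [DecidableEq ι]

/-- **Margins.** The geometric data are stable under small changes of the function and of the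
levels, and under larger domains. -/
theorem Geo_margin {L : AddSubgroup (ι → ℤ)} {q Q f : (ι → ℝ) → ℝ} {R a : ℝ} {z : ι → ℝ}
    {κ α ε lo ρ0 ρ1 ρ2 : ℝ} {W1 W2 Kw : List ((ι → ℝ) → ℝ)} {φ φ' : (ι → ℝ) → ℝ}
    (h : Geo L q Q f R a z κ α ε lo ρ0 ρ1 ρ2 W1 W2 Kw φ φ') :
    ∃ η > 0, ∀ g : (ι → ℝ) → ℝ, Continuous g → PerL L g → (∀ y, |g y - f y| ≤ η) →
      ∀ R' ≥ R, ∀ a' ≥ a, ∀ lo' ε' : ℝ, |lo' - lo| ≤ η → |ε' - ε| ≤ η →
        Geo L q Q g R' a' z κ α ε' lo' ρ0 ρ1 ρ2 W1 W2 Kw φ φ' := by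
  classical
  obtain ⟨hr1, hr10, hr0, hr2, hr21⟩ := h.ρ
  obtain ⟨hl1, hl2, hl3⟩ := h.lev
  have hc1 : ∀ G ∈ W1 ++ W2, ContinuousOn G (Metric.closedBall z ρ0) := fun G hG =>
    h.cont G (by simp only [List.mem_cons, List.mem_append] at hG ⊢; tauto)
  have hcφ : ContinuousOn φ (Metric.closedBall z ρ0) := h.cont φ (by simp)
  have hcφ' : ContinuousOn φ' (Metric.closedBall z ρ0) := h.cont φ' (by simp)
  have hcK : ∀ G ∈ Kw, ContinuousOn G (Metric.closedBall z ρ0) := fun G hG =>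
    h.cont G (by simp only [List.mem_cons, List.mem_append]; tauto)
  have hcomp := isCompact_closedBall z ρ0
  have hcomp2 := isCompact_closedBall z ρ2
  have hsub2 : Metric.closedBall z ρ2 ⊆ Metric.closedBall z ρ0 :=
    Metric.closedBall_subset_closedBall (by linarith)
  have hsh : ∀ r : ℝ, IsClosed {y : ι → ℝ | r ≤ ‖y - z‖} := fun r =>
    isClosed_le continuous_const (continuous_id.sub continuous_const).norm
  have hcf : ∀ c : ℝ, ∀ C : Set (ι → ℝ), ContinuousOn (fun y => f y - c) C := fun c C =>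
    (h.fc.sub continuous_const).continuousOn
  have hcf' : ∀ c : ℝ, ∀ C : Set (ι → ℝ), ContinuousOn (fun y => c - f y) C := fun c C =>
    (continuous_const.sub h.fc).continuousOn
  -- the wedge as a function
  set wg : (ι → ℝ) → ℝ := fun y => max (min (φ y) (φ' y)) 0 + max (-max (φ y) (φ' y)) 0 with hwg
  have hwgc : ContinuousOn wg (Metric.closedBall z ρ0) :=
    ((hcφ.inf hcφ').sup continuousOn_const).add ((hcφ.sup hcφ').neg.sup continuousOn_const)
  have hwg0 : ∀ y, wg y = 0 → min (φ y) (φ' y) ≤ 0 ∧ 0 ≤ max (φ y) (φ' y) := by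
    intro y hy
    have h1 : (0 : ℝ) ≤ max (min (φ y) (φ' y)) 0 := le_max_right _ _
    have h2 : (0 : ℝ) ≤ max (-max (φ y) (φ' y)) 0 := le_max_right _ _
    have h3 : max (min (φ y) (φ' y)) 0 + max (-max (φ y) (φ' y)) 0 = 0 := hy
    have h4 : max (min (φ y) (φ' y)) 0 = 0 := by linarith
    have h5 : max (-max (φ y) (φ' y)) 0 = 0 := by linarith
    have h6 := le_max_left (min (φ y) (φ' y)) 0
    have h7 := le_max_left (-max (φ y) (φ' y)) 0
    exact ⟨by linarith, by linarith⟩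
  have hwg1 : ∀ y, min (φ y) (φ' y) ≤ 0 → 0 ≤ max (φ y) (φ' y) → wg y = 0 := by
    intro y h1 h2
    change max (min (φ y) (φ' y)) 0 + max (-max (φ y) (φ' y)) 0 = 0
    rw [max_eq_right h1, max_eq_right (by linarith), add_zero]
  -- compactness
  obtain ⟨δ1, hδ1, hK1⟩ := cpt_list hcomp (wg :: (W1 ++ W2))
    (fun G hG => by rcases List.mem_cons.1 hG with rfl | hG; exacts [hwgc, hc1 G hG])
    (hcf lo _) (fun y hy hG => by
      have h1 := hwg0 y (hG wg List.mem_cons_self)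
      have h2 := (h.wedge y hy (fun G hG' => hG G (List.mem_cons_of_mem _ hG')) h1.1 h1.2).1
      linarith)
  obtain ⟨δ2, hδ2, hK2⟩ := cpt_list (hcomp.inter_right (hsh ρ1)) (wg :: (W1 ++ W2))
    (fun G hG => by
      rcases List.mem_cons.1 hG with rfl | hG
      exacts [hwgc.mono Set.inter_subset_left, (hc1 G hG).mono Set.inter_subset_left])
    (hcf (κ + α) _) (fun y hy hG => by
      have h1 := hwg0 y (hG wg List.mem_cons_self)
      have h2 := (h.wedge y hy.1 (fun G hG' => hG G (List.mem_cons_of_mem _ hG')) h1.1 h1.2).2 hy.2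
      linarith)
  obtain ⟨δ3, hδ3, hK3⟩ := cpt_list hcomp (φ :: (W1 ++ W2))
    (fun G hG => by rcases List.mem_cons.1 hG with rfl | hG; exacts [hcφ, hc1 G hG])
    (hcf (κ - ε) _) (fun y hy hG => by
      have h2 := h.wall y hy (fun G hG' => hG G (List.mem_cons_of_mem _ hG'))
        (hG φ List.mem_cons_self)
      linarith)
  obtain ⟨δ4, hδ4, hK4⟩ := cpt_list hcomp (φ' :: (W1 ++ W2))
    (fun G hG => by rcases List.mem_cons.1 hG with rfl | hG; exacts [hcφ', hc1 G hG])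
    (hcf (κ + α) _) (fun y hy hG => by
      have h2 := h.moved y hy (fun G hG' => hG G (List.mem_cons_of_mem _ hG'))
        (hG φ' List.mem_cons_self)
      linarith)
  obtain ⟨δ5, hδ5, hK5⟩ := cpt_list hcomp2 Kw (fun G hG => (hcK G hG).mono hsub2)
    (hcf' (κ + α) _) (fun y hy hG => by
      have h2 := (h.det y hy hG).1
      linarith)
  obtain ⟨δ6, hδ6, hK6⟩ := cpt_list (hcomp2.inter_right (hsh (ρ2 / 2))) Kw
    (fun G hG => (hcK G hG).mono (Set.inter_subset_left.trans hsub2))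
    (hcf' (κ - ε) _) (fun y hy hG => by
      have h2 := (h.det y hy.1 hG).2 hy.2
      linarith)
  have hzero : ∀ {l : List ((ι → ℝ) → ℝ)} {y : ι → ℝ} {δ : ℝ}, 0 < δ → (∀ G ∈ l, G y = 0) →
      ∀ G ∈ l, |G y| ≤ δ := fun hδ h0 G hG => by
    rw [h0 G hG, abs_zero]
    exact hδ.le
  set η : ℝ := min (min (min (δ1 / 2) δ2) (min (δ3 / 2) δ4))
    (min (min δ5 (δ6 / 2)) (min ((κ - ε - lo) / 4) (ε / 2))) with hη
  have hη0 : 0 < η := by
    refine lt_min (lt_min (lt_min ?_ ?_) (lt_min ?_ ?_)) (lt_min (lt_min ?_ ?_) (lt_min ?_ ?_)) <;>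
      linarith
  have e1 : η ≤ δ1 / 2 := (min_le_left _ _).trans ((min_le_left _ _).trans (min_le_left _ _))
  have e2 : η ≤ δ2 := (min_le_left _ _).trans ((min_le_left _ _).trans (min_le_right _ _))
  have e3 : η ≤ δ3 / 2 := (min_le_left _ _).trans ((min_le_right _ _).trans (min_le_left _ _))
  have e4 : η ≤ δ4 := (min_le_left _ _).trans ((min_le_right _ _).trans (min_le_right _ _))
  have e5 : η ≤ δ5 := (min_le_right _ _).trans ((min_le_left _ _).trans (min_le_left _ _))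
  have e6 : η ≤ δ6 / 2 := (min_le_right _ _).trans ((min_le_left _ _).trans (min_le_right _ _))
  have e7 : η ≤ (κ - ε - lo) / 4 :=
    (min_le_right _ _).trans ((min_le_right _ _).trans (min_le_left _ _))
  have e8 : η ≤ ε / 2 := (min_le_right _ _).trans ((min_le_right _ _).trans (min_le_right _ _))
  refine ⟨η, hη0, fun g hg hgp hgf R' hR' a' ha' lo' ε' hlo' hε' => ?_⟩
  obtain ⟨l1, l2⟩ := abs_le.1 hlo'
  obtain ⟨l3, l4⟩ := abs_le.1 hε'
  refine ⟨h.qc, h.Qc, hg, h.qp, h.Qp, hgp, h.ρ, ⟨by linarith, by linarith, hl3⟩, h.cont,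
    fun y hy => ?_, fun y hy hG h1 h2 => ?_, fun y hy hG h1 => ?_, fun y hy hG h1 => ?_,
    fun y hy hG => ?_⟩
  · obtain ⟨h1, h2⟩ := h.inn y hy
    exact ⟨h1.trans_le hR', by linarith⟩
  · have h0 := abs_le.1 (hgf y)
    have hG' : ∀ G ∈ wg :: (W1 ++ W2), G y = 0 := by
      intro G hG'
      rcases List.mem_cons.1 hG' with rfl | hG'
      · exact hwg1 y h1 h2
      · exact hG G hG'
    refine ⟨?_, fun h3 => ?_⟩
    · have h4 := hK1 y hy (hzero hδ1 hG')
      linarith [h0.1]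
    · have h4 := hK2 y ⟨hy, h3⟩ (hzero hδ2 hG')
      linarith [h0.1]
  · have h0 := abs_le.1 (hgf y)
    have hG' : ∀ G ∈ φ :: (W1 ++ W2), G y = 0 := by
      intro G hG'
      rcases List.mem_cons.1 hG' with rfl | hG'
      · exact h1
      · exact hG G hG'
    have h4 := hK3 y hy (hzero hδ3 hG')
    linarith [h0.1]
  · have h0 := abs_le.1 (hgf y)
    have hG' : ∀ G ∈ φ' :: (W1 ++ W2), G y = 0 := by
      intro G hG'
      rcases List.mem_cons.1 hG' with rfl | hG'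
      · exact h1
      · exact hG G hG'
    have h4 := hK4 y hy (hzero hδ4 hG')
    linarith [h0.1]
  · have h0 := abs_le.1 (hgf y)
    refine ⟨?_, fun h3 => ?_⟩
    · have h4 := hK5 y hy (hzero hδ5 hG)
      linarith [h0.2]
    · have h4 := hK6 y ⟨hy, h3⟩ (hzero hδ6 hG)
      linarith [h0.2]

/-- a number near `x` outside of a finite set -/
theorem exists_near (V : Finset ℝ) (x : ℝ) {η : ℝ} (hη : 0 < η) : ∃ y, |y - x| ≤ η ∧ y ∉ V := by
  have h1 : (Set.Icc x (x + η)).Infinite := Set.Icc_infinite (by linarith)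
  obtain ⟨y, hy, hyV⟩ := h1.exists_notMem_finset V
  exact ⟨y, abs_le.2 ⟨by linarith [hy.1], by linarith [hy.2]⟩, hyV⟩

/-- **From the geometric data of the action to a class in the degree `b`.** -/
theorem low_of_geo {n : ℕ} {S : ℕ → Pt n → ℝ} {K : ℕ} [NeZero K] {R : ℝ} {z : Iz n K → ℝ}
    {κ α ε lo ρ0 ρ1 ρ2 : ℝ} {W1 W2 Kw : List ((Iz n K → ℝ) → ℝ)} {φ φ' : (Iz n K → ℝ) → ℝ}
    (h : Geo (Lc n K) (qK n K) (QK n K) (fS S K) R R z κ α ε lo ρ0 ρ1 ρ2 W1 W2 Kw φ φ') {b : ℕ}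
    (hb : W1.length + W2.length = b) (hD : Fintype.card (Iz n K) = b + 1 + Kw.length)
    (hphi : ∀ (F : Type) [Field F], ∀ᶠ M : ℕ in atTop,
      Phi (F := F) (blf M z (3 * ρ2 / 4)) 0 (fun _ => 1)
        ((W1 ++ φ :: W2 ++ Kw).map (gr M)) ≠ 0) : Low S K b := by
  obtain ⟨η, hη, hm⟩ := Geo_margin h
  refine ⟨η, hη, R, fun F _ g hg hgp hgf R' hR' V => ?_⟩
  obtain ⟨lo', h1, h2⟩ := exists_near V lo hη
  obtain ⟨hi', h3, h4⟩ := exists_near V (κ - ε) hη
  have hG := hm g hg hgp hgf R' hR' R' hR' lo' (κ - hi') h1 (by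
    rw [show κ - hi' - ε = -(hi' - (κ - ε)) by ring, abs_neg]
    exact h3)
  have h5 := geo_HR (F := F) hG hb hD (hphi F)
  rw [sub_sub_cancel] at h5
  have h6 := hG.lev.1
  rw [sub_sub_cancel] at h6
  exact ⟨lo', hi', h6, h2, h4, h5⟩

end Pool.Agent.H88.TU
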