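import Pool.Agent.H93.TU.CaseA
import Pool.Agent.H75.TH.Exc

/-!
# Project TU: bands between two levels when no wrong critical value is alive
-/

set_option autoImplicit false

open Module QuadraticForm Filter Topology
open Pool.Agent.H47.QG (Pt action flw oseq Gen ind Zn MeanIdx)
open Pool.Agent.H47.ST
open Pool.Agent.H75.TH (Near Sepd Alive Wrong Exc_HR HR_upper)
open Pool.Agent.H45.AC (Rgd)
open Pool.Agent.H93.TU

namespace Pool.Agent.H88.TU

section sets

variable {ι : Type*} [Fintype ι] {F : Type*} [Field F]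

/-- if `(B, A)` is acyclic in degree `j` and `(B, A')` in degree `j + 1` then `(A', A)` is acyclic
in degree `j` -/
theorem HR_lower {L : AddSubgroup (ι → ℤ)} {A A' B : Set (ι → ℤ)} (hA' : Inv L A') (hB : Inv L B)
    (hAA' : A ⊆ A') (hA'B : A' ⊆ B) {j : ℕ} (h1 : HR F L B A' (j + 1) 0)
    (h2 : HR F L B A j 0) : HR F L A' A j 0 := by
  classical
  rw [Exc_HR] at h1 h2 ⊢
  intro x hx hdx
  have hIn : ∀ σ : Finset (ι → ℤ), In A' σ → In B σ := fun σ hσ =>
    ⟨hσ.1, fun v hv => hA'B (hσ.2 v hv)⟩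
  have hxB : x ∈ co (F := F) L B A (j + 1) :=
    ⟨hx.1, fun σ hσ => ⟨hIn σ (hx.2 σ hσ).1, (hx.2 σ hσ).2⟩⟩
  have hdB : dX B x ∈ co (F := F) L B A (j + 1 + 1) := dX_mem hB hxB
  have hdA' : dX B x ∈ co (F := F) L B A' (j + 1 + 1) := by
    refine ⟨hdB.1, fun σ hσ => ⟨(hdB.2 σ hσ).1, fun h3 => hσ ?_, (hdB.2 σ hσ).2.2⟩⟩
    have h4 : In A' σ := ⟨(hdB.2 σ hσ).1.1, h3⟩
    have h5 := congrFun hdx σ
    rw [dX_apply, if_pos h4, Pi.zero_apply] at h5
    rw [dX_apply, if_pos (hIn σ h4), h5]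
  obtain ⟨w, hw, hwx⟩ := h1 _ hdA' (dX_dX B x)
  have hxw : x - w ∈ co (F := F) L B A (j + 1) :=
    Submodule.sub_mem _ hxB (co_anti hAA' _ hw)
  obtain ⟨y, hy, hyx⟩ := h2 (x - w) hxw (by rw [map_sub, hwx, sub_self])
  refine ⟨cut (In A') y, ⟨fun l hl σ => ?_, fun σ hσ => ?_⟩, ?_⟩
  · rw [cut_apply, cut_apply]
    by_cases h3 : In A' σ
    · rw [if_pos h3, if_pos ((CellA_tr_In hA' hl).2 h3), hy.1 l hl]
    · rw [if_neg h3, if_neg fun h' => h3 ((CellA_tr_In hA' hl).1 h')]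
  · rw [cut_apply] at hσ
    have h3 : In A' σ := by
      by_contra h'
      exact hσ (if_neg h')
    rw [if_pos h3] at hσ
    exact ⟨h3, (hy.2 σ hσ).2⟩
  · ext σ
    rw [dX_apply]
    split_ifs with h3
    · have h4 := congrFun hyx σ
      rw [dX_apply, if_pos (hIn σ h3), Pi.sub_apply] at h4
      have h5 : w σ = 0 := by
        by_contra h6
        exact (hw.2 σ h6).2.1 h3.2
      rw [h5, sub_zero] at h4
      rw [← h4]
      refine Finset.sum_congr rfl fun v _ => ?_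
      rw [cut_apply, if_pos (CellA_In_erase h3 v)]
    · by_contra h4
      exact h3 (hx.2 σ (Ne.symm h4)).1

end sets

variable {ι : Type*} [Fintype ι] [DecidableEq ι]
variable {L : AddSubgroup (ι → ℤ)} {q Q f : (ι → ℝ) → ℝ} {R a : ℝ} {Z : Finset (ι → ℝ)}

/-- bands without critical values are acyclic -/
theorem Tot_acyclic' (F : Type*) [Field F] (h : Tot L q Q f R a Z) {α β : ℝ} (hle : α ≤ β)
    (hno : α < β → ∀ z ∈ Z, ¬ (α ≤ f z ∧ f z ≤ β)) :
    ∀ᶠ M : ℕ in atTop, ∀ j, HR F (lam L (2 ^ M)) (Lv q Q f R a β (2 ^ M))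
      (Lv q Q f R a α (2 ^ M)) j 0 := by
  rcases hle.lt_or_eq with hlt | rfl
  · exact h.acyclic F hlt (hno hlt)
  · exact Eventually.of_forall fun M j => Lev_self _ _ j 0

/-- **Transfer** of acyclicity between two bands around the same critical value. -/
theorem Tot_transfer (F : Type*) [Field F] (h : Tot L q Q f R a Z) {v b₁ b₂ c₁ c₂ : ℝ}
    (hb1 : b₁ < v) (hb2 : v < b₂) (hc1 : c₁ < v) (hc2 : v < c₂)
    (hb : ∀ z ∈ Z, b₁ ≤ f z → f z ≤ b₂ → f z = v) (hc : ∀ z ∈ Z, c₁ ≤ f z → f z ≤ c₂ → f z = v)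
    (hH : ∀ᶠ M : ℕ in atTop, ∀ j, HR F (lam L (2 ^ M)) (Lv q Q f R a b₂ (2 ^ M))
      (Lv q Q f R a b₁ (2 ^ M)) j 0) :
    ∀ᶠ M : ℕ in atTop, ∀ j, HR F (lam L (2 ^ M)) (Lv q Q f R a c₂ (2 ^ M))
      (Lv q Q f R a c₁ (2 ^ M)) j 0 := by
  set d₂ := min b₂ c₂ with hd₂
  set d₁ := max b₁ c₁ with hd₁
  have hd1 : d₁ < v := max_lt hb1 hc1
  have hd2 : v < d₂ := lt_min hb2 hc2
  have hinv : ∀ (c : ℝ) (M : ℕ), Inv (lam L (2 ^ M)) (Lv q Q f R a c (2 ^ M)) := fun c M =>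
    Lv_inv h.dm.qp h.dm.Qp h.per R a c (by positivity)
  have h1 := Tot_acyclic' F h (min_le_left b₂ c₂ : d₂ ≤ b₂) (fun _ z hz h2 => by
    have h3 := hb z hz (by linarith [h2.1]) h2.2
    linarith [h2.1])
  have h2 := Tot_acyclic' F h (le_max_left b₁ c₁ : b₁ ≤ d₁) (fun _ z hz h2 => by
    have h3 := hb z hz h2.1 (by linarith [h2.2])
    linarith [h2.2])
  have h3 := Tot_acyclic' F h (min_le_right b₂ c₂ : d₂ ≤ c₂) (fun _ z hz h2 => by
    have h3 := hc z hz (by linarith [h2.1]) h2.2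
    linarith [h2.1])
  have h4 := Tot_acyclic' F h (le_max_right b₁ c₁ : c₁ ≤ d₁) (fun _ z hz h2 => by
    have h3 := hc z hz h2.1 (by linarith [h2.2])
    linarith [h2.2])
  filter_upwards [hH, h1, h2, h3, h4] with M k0 k1 k2 k3 k4
  have m1 : Lv q Q f R a b₁ (2 ^ M) ⊆ Lv q Q f R a d₁ (2 ^ M) :=
    Lv_mono q Q f R a (le_max_left _ _) _
  have m2 : Lv q Q f R a c₁ (2 ^ M) ⊆ Lv q Q f R a d₁ (2 ^ M) :=
    Lv_mono q Q f R a (le_max_right _ _) _
  have m3 : Lv q Q f R a d₁ (2 ^ M) ⊆ Lv q Q f R a d₂ (2 ^ M) :=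
    Lv_mono q Q f R a (hd1.trans hd2).le _
  have m4 : Lv q Q f R a d₂ (2 ^ M) ⊆ Lv q Q f R a b₂ (2 ^ M) :=
    Lv_mono q Q f R a (min_le_left _ _) _
  have m5 : Lv q Q f R a d₂ (2 ^ M) ⊆ Lv q Q f R a c₂ (2 ^ M) :=
    Lv_mono q Q f R a (min_le_right _ _) _
  have k5 : ∀ j, HR F (lam L (2 ^ M)) (Lv q Q f R a d₂ (2 ^ M)) (Lv q Q f R a b₁ (2 ^ M)) j 0 :=
    fun j => HR_lower (hinv _ _) (hinv _ _) (m1.trans m3) m4 (k1 (j + 1)) (k0 j)
  have k6 : ∀ j, HR F (lam L (2 ^ M)) (Lv q Q f R a d₂ (2 ^ M)) (Lv q Q f R a d₁ (2 ^ M)) j 0 :=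
    HR_upper (hinv _ _) (hinv _ _) m1 m3 k2 k5
  intro j
  exact HR.comp (hinv _ _) (hinv _ _) (m2.trans m3) m5
    (HR.comp (hinv _ _) (hinv _ _) m2 m3 (k4 j) (k6 j)) (k3 j)

omit [DecidableEq ι] in
/-- all degrees -/
theorem Tot_all {F : Type*} [Field F] {L : ℕ → AddSubgroup (ι → ℤ)} {B A : ℕ → Set (ι → ℤ)}
    (h : ∀ j, ∀ᶠ M : ℕ in atTop, HR F (L M) (B M) (A M) j 0) :
    ∀ᶠ M : ℕ in atTop, ∀ j, HR F (L M) (B M) (A M) j 0 := by
  have h1 : ∀ᶠ M : ℕ in atTop, ∀ j ∈ Finset.range (Fintype.card ι + 1),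
      HR F (L M) (B M) (A M) j 0 := by
    rw [Filter.eventually_all_finset]
    exact fun j _ => h j
  filter_upwards [h1] with M hM j
  by_cases hj : j < Fintype.card ι + 1
  · exact hM j (Finset.mem_range.2 hj)
  · refine RK_zero.2 fun x hx _ => ⟨0, Submodule.zero_mem _, ?_⟩
    rw [co_big _ _ _ (by omega), Submodule.mem_bot] at hx
    rw [hx, map_zero, sub_zero]
    exact Submodule.zero_mem _

/-- **Between two levels.** If every critical value in between has an acyclic thin band or only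
critical points of index at least `b` then the band is acyclic in the degrees below `b`. -/
theorem Tot_between (F : Type*) [Field F] (h : Tot L q Q f R a Z) {lo hi : ℝ} (hlt : lo < hi)
    (hlo : lo ∉ Z.image f) (hhi : hi ∉ Z.image f) {b : ℕ}
    (hval : ∀ z ∈ Z, lo < f z → f z < hi →
      (∃ b₁ b₂, b₁ < f z ∧ f z < b₂ ∧ (∀ z' ∈ Z, b₁ ≤ f z' → f z' ≤ b₂ → f z' = f z) ∧
        ∀ᶠ M : ℕ in atTop, ∀ j, HR F (lam L (2 ^ M)) (Lv q Q f R a b₂ (2 ^ M))
          (Lv q Q f R a b₁ (2 ^ M)) j 0) ∨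
      ∀ z' ∈ Z, f z' = f z → b ≤ sigNeg (Pool.Agent.H47.QG.hess f z')) :
    ∀ᶠ M : ℕ in atTop, ∀ j < b, HR F (lam L (2 ^ M)) (Lv q Q f R a hi (2 ^ M))
      (Lv q Q f R a lo (2 ^ M)) j 0 := by
  classical
  obtain ⟨M0, α, h0, hM0, hα, hV1, hV2⟩ :=
    Pool.Agent.H45.AC.levels_between (Z.image f) hlt hlo hhi
  have hinv : ∀ (c : ℝ) (M : ℕ), Inv (lam L (2 ^ M)) (Lv q Q f R a c (2 ^ M)) := fun c M =>
    Lv_inv h.dm.qp h.dm.Qp h.per R a c (by positivity)
  -- the levels increase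
  have hmono : ∀ m ≤ M0, ∀ i ≤ m, α i ≤ α m := by
    intro m
    induction m with
    | zero =>
      intro _ i hi
      rw [Nat.le_zero.1 hi]
    | succ m ih =>
      intro hm i hi
      rcases Nat.lt_or_ge m i with h1 | h1
      · rw [show i = m + 1 by omega]
      · exact (ih (by omega) i h1).trans (hα m (by omega)).le
  -- every small band
  have hsmall : ∀ i < M0, ∀ᶠ M : ℕ in atTop, ∀ j < b, HR F (lam L (2 ^ M))
      (Lv q Q f R a (α (i + 1)) (2 ^ M)) (Lv q Q f R a (α i) (2 ^ M)) j 0 := by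
    intro i hi'
    by_cases hex : ∃ z ∈ Z, α i < f z ∧ f z < α (i + 1)
    · obtain ⟨z, hz, h1, h2⟩ := hex
      have hsame : ∀ z' ∈ Z, α i ≤ f z' → f z' ≤ α (i + 1) → f z' = f z := by
        intro z' hz' h3 h4
        have h3' : α i < f z' := lt_of_le_of_ne h3 fun he =>
          hV1 i hi'.le (by rw [he]; exact Finset.mem_image_of_mem f hz')
        have h4' : f z' < α (i + 1) := lt_of_le_of_ne h4 fun he =>
          hV1 (i + 1) hi' (by rw [← he]; exact Finset.mem_image_of_mem f hz')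
        exact hV2 i hi' _ (Finset.mem_image_of_mem f hz') _ (Finset.mem_image_of_mem f hz)
          h3' h4' h1 h2
      have h5 : lo < f z := by
        rw [← h0]
        exact (hmono i hi'.le 0 (Nat.zero_le _)).trans_lt h1
      have h6 : f z < hi := by
        rw [← hM0]
        exact h2.trans_le (hmono M0 le_rfl (i + 1) hi')
      rcases hval z hz h5 h6 with ⟨b₁, b₂, h7, h8, h9, h10⟩ | h7
      · filter_upwards [Tot_transfer F h h7 h8 h1 h2 h9 hsame h10] with M hM j _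
        exact hM j
      · filter_upwards [window_out F (h.band (hα i hi') (hV1 i hi'.le) (hV1 (i + 1) hi'))]
          with M hM j hj
        refine hM j fun z' hz' => ?_
        rw [Finset.mem_filter] at hz'
        rintro ⟨h8, -⟩
        have h9 := h7 z' hz'.1 (hsame z' hz'.1 hz'.2.1.le hz'.2.2.le)
        omega
    · push Not at hex
      filter_upwards [h.acyclic F (hα i hi') (fun z hz h1 => by
        have h3 : α i < f z := lt_of_le_of_ne h1.1 fun he =>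
          hV1 i hi'.le (by rw [he]; exact Finset.mem_image_of_mem f hz)
        have h4 := hex z hz h3
        exact hV1 (i + 1) hi' (by
          rw [le_antisymm h4 h1.2]; exact Finset.mem_image_of_mem f hz))] with M hM j _
      exact hM j
  have hall : ∀ᶠ M : ℕ in atTop, ∀ i ∈ Finset.range M0, ∀ j < b, HR F (lam L (2 ^ M))
      (Lv q Q f R a (α (i + 1)) (2 ^ M)) (Lv q Q f R a (α i) (2 ^ M)) j 0 := by
    rw [Filter.eventually_all_finset]
    exact fun i hi => hsmall i (Finset.mem_range.1 hi)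
  filter_upwards [hall] with M hM j hj
  have key : ∀ i ≤ M0, HR F (lam L (2 ^ M)) (Lv q Q f R a (α i) (2 ^ M))
      (Lv q Q f R a (α 0) (2 ^ M)) j 0 := by
    intro i
    induction i with
    | zero => exact fun _ => Lev_self _ _ j 0
    | succ i ih =>
      intro hi'
      exact HR.comp (hinv _ _) (hinv _ _) (Lv_mono q Q f R a (hmono i (by omega) 0 (by omega)) _)
        (Lv_mono q Q f R a (hα i (by omega)).le _) (ih (by omega))
        (hM i (Finset.mem_range.2 (by omega)) j hj)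
  have h1 := key M0 le_rfl
  rwa [h0, hM0] at h1

variable {n : ℕ}

/-- the Hessian at a critical point of a small perturbation of the action -/
theorem near_hess {S : ℕ → Pt n → ℝ} {K : ℕ} [NeZero K] {C ε : ℝ} {g : (Iz n K → ℝ) → ℝ}
    (hg : Near S K C ε g) {z : Iz n K → ℝ} (hz : fderiv ℝ (fS S K) z = 0) :
    Pool.Agent.H47.QG.hess g z = Pool.Agent.H47.QG.hess (fS S K) z := by
  obtain ⟨c, hc⟩ := hg.loc z hz
  have h1 : g =ᶠ[𝓝 z] fun x => fS S K x + c := hc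
  have h2 : fderiv ℝ g =ᶠ[𝓝 z] fderiv ℝ (fun x => fS S K x + c) := h1.fderiv
  have h3 : fderiv ℝ (fun x => fS S K x + c) = fderiv ℝ (fS S K) := by
    funext x
    exact fderiv_add_const c
  rw [h3] at h2
  unfold Pool.Agent.H47.QG.hess
  rw [h2.fderiv_eq]

/-- fixed points are critical points -/
theorem zw_crit {S : ℕ → Pt n → ℝ} {f : ℕ → Pt n → Pt n} (hS : ∀ j, Gen (S j) (f j)) {K : ℕ}
    [NeZero K] {w : Pt n} (hw : flw f K w = w) : fderiv ℝ (fS S K) (zw f K w) = 0 := by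
  rw [fS_crit hS, ActZ_zw, ActZ_oseq_zero]
  exact ⟨hw, rfl⟩

/-- the index of a critical point of a small perturbation of the action -/
theorem near_ind {S : ℕ → Pt n → ℝ} {f : ℕ → Pt n → Pt n} (hS : ∀ j, Gen (S j) (f j)) {K : ℕ}
    [NeZero K] {C ε : ℝ} {g : (Iz n K → ℝ) → ℝ} (hg : Near S K C ε g) {w : Pt n}
    (hw : flw f K w = w) :
    sigNeg (Pool.Agent.H47.QG.hess g (zw f K w)) = ind S f K w := by
  rw [near_hess hg (zw_crit hS hw), fS_sigNeg hS]

/-- **No band below the bottom degree.** If no critical value of points with mean index `≠ 0` is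
alive then the band between any two regular levels is acyclic in the degrees below
`n (K - 1)`. -/
theorem near_between {S : ℕ → Pt n → ℝ} {f : ℕ → Pt n → Pt n} (hS : ∀ j, Gen (S j) (f j)) {K : ℕ}
    [NeZero K] (hper : ∀ j, S (j + K) = S j) (hfper : ∀ j, f (j + K) = f j)
    (W : Finset (Pt n)) (hW : ∀ w, flw f K w = w ↔ ∃ w' ∈ W, w - w' ∈ Zn n)
    (hWd : ∀ w ∈ W, ∀ w' ∈ W, w - w' ∈ Zn n → w = w') {C ε : ℝ} {g : (Iz n K → ℝ) → ℝ}
    (hg : Near S K C ε g) (hsep : Sepd S f K g) {C' R : ℝ}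
    (hC' : ∀ y b, |fderiv ℝ g y (Pi.single b 1) - DK n K y b| ≤ C') (hR : Rgd n K 1 C' R)
    {q : ℕ} [Fact q.Prime]
    (hna : ∀ w t, flw f K w = w → MeanIdx S f K w t → t ≠ 0 → ¬ Alive f K g q R (g (zw f K w)))
    {lo hi : ℝ} (hlt : lo < hi) (hlo : ∀ w, flw f K w = w → g (zw f K w) ≠ lo)
    (hhi : ∀ w, flw f K w = w → g (zw f K w) ≠ hi) :
    ∀ᶠ M : ℕ in atTop, ∀ j < n * (K - 1), HR (ZMod q) (lam (Lc n K) (2 ^ M))
      (Lv (qK n K) (QK n K) g R R hi (2 ^ M)) (Lv (qK n K) (QK n K) g R R lo (2 ^ M)) j 0 := by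
  classical
  have hK : 0 < K := Nat.pos_of_neZero K
  have hT := CaseA_tot hS W hW hWd hg hC' hR
  have hfix : ∀ w ∈ W, flw f K w = w := fun w hw =>
    (hW w).2 ⟨w, hw, by rw [sub_self]; exact (Zn n).zero_mem⟩
  refine Tot_between (ZMod q) hT hlt (fun hm => ?_) (fun hm => ?_) fun z hz h1 h2 => ?_
  · obtain ⟨z, hz, h3⟩ := Finset.mem_image.1 hm
    obtain ⟨w, hw, rfl⟩ := Finset.mem_image.1 hz
    exact hlo w (hfix w hw) h3
  · obtain ⟨z, hz, h3⟩ := Finset.mem_image.1 hm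
    obtain ⟨w, hw, rfl⟩ := Finset.mem_image.1 hz
    exact hhi w (hfix w hw) h3
  · obtain ⟨w, hw, rfl⟩ := Finset.mem_image.1 hz
    obtain ⟨t, ht, -⟩ := CaseA_mean hS hK hper hfper w (hfix w hw)
    by_cases ht0 : t = 0
    · right
      intro z' hz' he
      obtain ⟨w', hw', rfl⟩ := Finset.mem_image.1 hz'
      obtain ⟨t', ht', -⟩ := CaseA_mean hS hK hper hfper w' (hfix w' hw')
      have ht'0 : t' = 0 := by
        by_contra hne
        exact hsep w' w t' t (hfix w' hw') (hfix w hw) ht' ht (by rw [ht0]; exact hne) he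
      subst ht'0
      rw [near_ind hS hg (hfix w' hw')]
      exact CaseA_ge hS hK hper hfper w' (hfix w' hw') ht'
    · left
      have h3 := hna w t (hfix w hw) ht ht0
      unfold Alive at h3
      push Not at h3
      obtain ⟨b₁, b₂, h4, h5, h6, h7⟩ := h3
      refine ⟨b₁, b₂, h4, h5, fun z' hz' => ?_, Tot_all fun j => ?_⟩
      · obtain ⟨w', hw', rfl⟩ := Finset.mem_image.1 hz'
        exact h6 w' (hfix w' hw')
      · exact h7 j

end Pool.Agent.H88.TU
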